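import Pool.Agent.W402.HI.Final

/-!
# MP_f981b0_an: perturbations of operators whose resolvent has finite order near a rectifiable curve

Let `S` and `K` be bounded operators on a complex Banach space, `E = γ([0,1])` a rectifiable curve and
`U` an open set, and let the growth of the resolvent of `S` near `E` inside `U` be matched with the
approximability of `K`: for all `δ ∈ (0, 1]` there are an operator `G` of rank at most `C δ^(-k)` and a
number `1 ≤ R ≤ exp (C δ^(-k))` with `‖K - G‖ R ≤ 1/2` and `‖(z - S)⁻¹‖ ≤ R` for all `z ∈ U` with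
`dist(z, E) ≥ δ`.  If the spectrum of `T = S + K` meets `U` and has more than one point, then `T` has a
nontrivial closed hyperinvariant subspace.

Two special cases: `poly` (the resolvent of `S` grows polynomially, the approximation numbers of `K` decay
polynomially) and `expo` (the resolvent of `S` grows at most like `exp (C dist(z, E)^(-k))`, the
approximation numbers of `K` decay like `exp (-m^ε)`; for example `K = 0` or `K` of finite rank).

The proof: on almost every vertical line the curve has finitely many points and a tangent at each of them;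
near such a point the perturbation determinant of a finite-dimensional approximation is bounded from below
outside narrow cones about the tangent (Harnack's inequality), and this is enough for a dbar functional
calculus with cut-off functions that vanish to infinite order at the points of the line.
-/

set_option autoImplicit false

namespace Pool.Agent.Results.MP_f981b0_an.CurvePerturbation

open Pool.Agent.W402.HI Pool.Agent.W402.HI.Final

/-- **Hyperinvariant subspaces of perturbations of operators with spectrum on a rectifiable curve.** -/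
theorem result (X : Type) [NormedAddCommGroup X] [NormedSpace ℂ X] [CompleteSpace X]
    (S K T : X →L[ℂ] X) (hT : T = S + K)
    (γ : ℝ → ℂ) (L : NNReal) (hγ : LipschitzWith L γ)
    (E : Set ℂ) (hE : E = γ '' Set.Icc 0 1) (U : Set ℂ) (hU : IsOpen U) (C : ℝ) (k : ℕ)
    (hM : ∀ δ : ℝ, 0 < δ → δ ≤ 1 → ∃ (G : X →L[ℂ] X) (R : ℝ),
      FiniteDimensional ℂ (LinearMap.range (G : X →ₗ[ℂ] X)) ∧
      (Module.finrank ℂ (LinearMap.range (G : X →ₗ[ℂ] X)) : ℝ) ≤ C / δ ^ k ∧
      1 ≤ R ∧ R ≤ Real.exp (C / δ ^ k) ∧ ‖K - G‖ * R ≤ 1 / 2 ∧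
      ∀ z ∈ U, δ ≤ Metric.infDist z E → z ∈ resolventSet ℂ S ∧ ‖resolvent S z‖ ≤ R)
    (h1 : (spectrum ℂ T ∩ U).Nonempty) (h2 : (spectrum ℂ T).Nontrivial) :
    ∃ V : Submodule ℂ X, IsClosed (V : Set X) ∧ V ≠ ⊥ ∧ V ≠ ⊤ ∧
      ∀ Q : X →L[ℂ] X, Q * T = T * Q → ∀ x ∈ V, Q x ∈ V := by
  subst hT
  subst hE
  obtain ⟨p, hp, hpU⟩ := h1
  exact Asm.perturbGen hH2 hE3 Pool.Agent.W324.HI.E4.main X S K γ L hγ U hU C k hM
    ⟨p, hp, hpU⟩ h2

/-- special case: polynomial growth, polynomial decay of the approximation numbers -/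
theorem poly (X : Type) [NormedAddCommGroup X] [NormedSpace ℂ X] [CompleteSpace X]
    (S K T : X →L[ℂ] X) (hT : T = S + K)
    (γ : ℝ → ℂ) (L : NNReal) (hγ : LipschitzWith L γ)
    (E : Set ℂ) (hE : E = γ '' Set.Icc 0 1) (U : Set ℂ) (hU : IsOpen U)
    (hS : ∃ (C : ℝ) (k : ℕ), ∀ z ∈ U, z ∉ E →
      z ∈ resolventSet ℂ S ∧ ‖resolvent S z‖ ≤ C / Metric.infDist z E ^ k)
    (hK : ∃ C ε : ℝ, 0 < ε ∧ ∀ m : ℕ, 1 ≤ m → ∃ G : X →L[ℂ] X,
      FiniteDimensional ℂ (LinearMap.range (G : X →ₗ[ℂ] X)) ∧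
      Module.finrank ℂ (LinearMap.range (G : X →ₗ[ℂ] X)) ≤ m ∧ ‖K - G‖ ≤ C / (m : ℝ) ^ ε)
    (h1 : (spectrum ℂ T ∩ U).Nonempty) (h2 : (spectrum ℂ T).Nontrivial) :
    ∃ V : Submodule ℂ X, IsClosed (V : Set X) ∧ V ≠ ⊥ ∧ V ≠ ⊤ ∧
      ∀ Q : X →L[ℂ] X, Q * T = T * Q → ∀ x ∈ V, Q x ∈ V := by
  subst hT
  subst hE
  obtain ⟨p, hp, hpU⟩ := h1
  exact Asm.perturb hH2 hE3 Pool.Agent.W324.HI.E4.main Pool.Agent.W991.HI.E5.main
    Pool.Agent.W991.HI.E5L.main X S K γ L hγ U hU hK hS ⟨p, hp, hpU⟩ h2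

/-- special case: growth of finite exponential order, approximation numbers at most `C exp (-m^ε)` -/
theorem expo (X : Type) [NormedAddCommGroup X] [NormedSpace ℂ X] [CompleteSpace X]
    (S K T : X →L[ℂ] X) (hT : T = S + K)
    (γ : ℝ → ℂ) (L : NNReal) (hγ : LipschitzWith L γ)
    (E : Set ℂ) (hE : E = γ '' Set.Icc 0 1) (U : Set ℂ) (hU : IsOpen U)
    (hS : ∃ (C : ℝ) (k : ℕ), ∀ z ∈ U, z ∉ E →
      z ∈ resolventSet ℂ S ∧ ‖resolvent S z‖ ≤ Real.exp (C / Metric.infDist z E ^ k))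
    (hK : ∃ C ε : ℝ, 0 < ε ∧ ∀ m : ℕ, 1 ≤ m → ∃ G : X →L[ℂ] X,
      FiniteDimensional ℂ (LinearMap.range (G : X →ₗ[ℂ] X)) ∧
      Module.finrank ℂ (LinearMap.range (G : X →ₗ[ℂ] X)) ≤ m ∧
      ‖K - G‖ ≤ C * Real.exp (-(m : ℝ) ^ ε))
    (h1 : (spectrum ℂ T ∩ U).Nonempty) (h2 : (spectrum ℂ T).Nontrivial) :
    ∃ V : Submodule ℂ X, IsClosed (V : Set X) ∧ V ≠ ⊥ ∧ V ≠ ⊤ ∧
      ∀ Q : X →L[ℂ] X, Q * T = T * Q → ∀ x ∈ V, Q x ∈ V := by
  subst hT
  subst hE
  obtain ⟨p, hp, hpU⟩ := h1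
  exact Asm.perturbExp hH2 hE3 Pool.Agent.W324.HI.E4.main Pool.Agent.W991.HI.E5.main
    X S K γ L hγ U hU hK hS ⟨p, hp, hpU⟩ h2

end Pool.Agent.Results.MP_f981b0_an.CurvePerturbation
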