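import Pool.Agent.W611.RO.FinC

/-!
# Almost every member of an ergodic family of operators on `ℓ²(G)` has a nontrivial hyperinvariant subspace

Let the countable group `G` act ergodically on a probability space `(Ω, P)`, let `χ : G → ℤ` be additive, and
let `a g : Ω → ℂ` (`g ∈ G`) be measurable with `∑ sup ‖a g‖ < ∞`.  The operators
`(T ω f)(i) = ∑ g, a g (i⁻¹ ω) f(i g)` on `ℓ²(G)` are the absolutely summable operators of the family with
stationary random coefficients.  If one `g₀` with `χ g₀ > 0` strictly dominates all other `g` with `a g ≠ 0`,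
`a g₀ ≠ 0` almost everywhere and `log ‖a g₀‖` is integrable, then for almost every `ω` the operator `T ω` has
a closed subspace, neither `{0}` nor the whole space, invariant under all bounded operators commuting with
`T ω`.

Examples: `G = ℤ^d`, finitely many `g` (any finite set has a strictly dominating element for suitable `χ`):
discrete Schroedinger operators with ergodic complex potential (non-self-adjoint Anderson models), random
banded operators; the same on free groups, and on every group with a homomorphism to `ℤ` that separates one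
element of the range from the others.

Proof: the covariant fields form a C*-algebra with a trace `τ`.  The operators `Ψ(w)` obtained from `T - c` by
weighting `g` with `w^(χ g₀ - χ g)` have `τ log (δ + |Ψ(w)^k|²)` subharmonic and rotation invariant in `w`
(the dual action of `χ`), so its value at `1` (the operator `(T - c)^k`) is at least the value at `0` (the
dominating term), which is at least `2 k ∫ log ‖a g₀‖`.  So the Brown measure of `T` is not a point mass,
and the theorem of Haagerup and Schultz gives a nontrivial projection field; a zero-one law from ergodicity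
makes its values nontrivial for almost every `ω`.

The parts were formalised by helpers 116, 135, 253, 338, 405, 493, 515, 540, 545, 636, 721, 883 (and 611), on
the library for the Haagerup-Schultz theorem of helpers 712, 417 and 270 in the starting files.
-/

set_option autoImplicit false
open MeasureTheory

namespace Pool.Agent.Results.MP_f981b0_an.ErgodicOperators

/-- the Hilbert space of square summable complex functions on `G` -/
abbrev L2 (G : Type) : Type := lp (fun _ : G => ℂ) 2

/-- `G` acts on the probability space `(Ω, P)` by measure-preserving maps, and every measurable set which is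
invariant under all of them has probability zero or one -/
structure ErgodicAction (G : Type) {Ω : Type} [Group G] [MeasurableSpace Ω] [MulAction G Ω]
    (P : Measure Ω) : Prop where
  preserving : ∀ g : G, MeasurePreserving (fun ω : Ω => g • ω) P P
  ergodic : ∀ B : Set Ω, MeasurableSet B → (∀ g : G, (fun ω : Ω => g • ω) ⁻¹' B = B) →
    P B = 0 ∨ P Bᶜ = 0

/-- `T` has a closed subspace, neither `{0}` nor the whole space, which is invariant under every bounded
operator commuting with `T` -/
def HasHyperinvariantSubspace {H : Type} [NormedAddCommGroup H] [NormedSpace ℂ H] (T : H →L[ℂ] H) :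
    Prop :=
  ∃ V : Submodule ℂ H, IsClosed (V : Set H) ∧ V ≠ ⊥ ∧ V ≠ ⊤ ∧
    ∀ Q : H →L[ℂ] H, (∀ f, Q (T f) = T (Q f)) → ∀ f ∈ V, Q f ∈ V

/-- the operators `(T ω f)(i) = ∑ g, a g (i⁻¹ ω) f(i g)` -/
def IsFamily {G Ω : Type} [Group G] [MulAction G Ω] (a : G → Ω → ℂ) (T : Ω → (L2 G →L[ℂ] L2 G)) :
    Prop :=
  ∀ (ω : Ω) (f : L2 G) (i : G), (T ω f : G → ℂ) i = ∑' g, a g (i⁻¹ • ω) * (f : G → ℂ) (i * g)

theorem result (G Ω : Type) [Group G] [Countable G] [MeasurableSpace Ω] [MulAction G Ω]
    (P : Measure Ω) [IsProbabilityMeasure P] (hP : ErgodicAction G P)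
    (χ : G → ℤ) (hχ : ∀ g h, χ (g * h) = χ g + χ h)
    (a : G → Ω → ℂ) (ham : ∀ g, Measurable (a g))
    (R : G → ℝ) (hR : Summable R) (haR : ∀ g ω, ‖a g ω‖ ≤ R g)
    (g₀ : G) (hpos : 0 < χ g₀) (hlt : ∀ g, g ≠ g₀ → χ g < χ g₀ ∨ ∀ ω, a g ω = 0)
    (hne : ∀ᵐ ω ∂P, a g₀ ω ≠ 0) (hlog : Integrable (fun ω => Real.log ‖a g₀ ω‖) P) :
    ∃ T : Ω → (L2 G →L[ℂ] L2 G), IsFamily a T ∧
      ∀ᵐ ω ∂P, HasHyperinvariantSubspace (T ω) := by
  obtain ⟨T, hT⟩ := Pool.Agent.W611.RO.exists_family G Ω a R hR haR
  refine ⟨T, hT, ?_⟩
  have h := Pool.Agent.W611.RO.final G Ω P ⟨hP.preserving, hP.ergodic⟩ χ hχ a g₀ R hR ham haR hpos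
    hlt hne hlog T hT
  filter_upwards [h] with ω hω
  obtain ⟨V, h1, h2, h3, h4⟩ := hω
  exact ⟨V, h1, h2, h3, fun Q hQ => h4 Q (ContinuousLinearMap.ext hQ)⟩

end Pool.Agent.Results.MP_f981b0_an.ErgodicOperators
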