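import Pool.Agent.W768.RK.F

/-!
# Typical one-dimensional changes of an arbitrary operator have invariant half-spaces (MP_f981b0_an)

Let `X` be an infinite-dimensional complex Banach space and `T` *any* bounded operator on `X`.  For all
pairs `(x, φ)` in a residual subset of `X × X*` the operators

* `T + c x ⊗ φ` (rank-one perturbation),
* the compression of `T` to the hyperplane `ker φ` along `x`,
* `[[T, x], [φ, a]]` on `X × ℂ` (one-dimensional extension)

have invariant half-spaces (closed subspaces of infinite dimension and codimension); if `T` is not
algebraic, they have infinitely many eigenvalues outside the spectrum of `T`, and half-spaces which are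
invariant under the whole commutant.  One pair `(x, φ)` serves countably many operators at once.

Method: the eigenvalues `z` outside `σ(T)` are the solutions of `φ((z - T)⁻¹ x) = w(z)`, `w = 1/c`, `0`,
`z - a`.  If a small perturbation of `(x, φ)` could not create a further solution near the boundary of
the unbounded component `Ω` of the resolvent set, then `|w(z) - φ((z - T)⁻¹ x)| ≥ η ‖(z - T)⁻¹‖` there;
after division by a product of factors `z - a_i`, `a_i ∈ σ(T)`, the maximum principle on `Ω` shows that
`σ(T)` is finite, and then that `T` is algebraic.  Baire's theorem finishes the proof.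
-/

set_option autoImplicit false

open Filter Topology

namespace Pool.Agent.Results.MP_f981b0_an.GenericRankOne

open Pool.Agent.W768.RK (HasInvariantHalfSpace HasHyperinvariantHalfSpace ManyEigenvalues pert compr
  extn)

/-- Let `X` be an infinite-dimensional complex Banach space, `T n` a sequence of bounded operators,
`c n ≠ 0` and `a n` complex numbers.  For all `p = (x, φ)` in a residual subset of `X × X*`: `φ x ≠ 0`,
and for every `n` the rank-one perturbation `T n + c n • (x ⊗ φ)`, the compression of `T n` to `ker φ`
along `x` and the extension `[[T n, x], [φ, a n]]` on `X × ℂ` have invariant half-spaces; if `T n` is not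
algebraic they have hyperinvariant half-spaces, and infinitely many eigenvalues outside the spectrum of
`T n`. -/
theorem result (X : Type) [NormedAddCommGroup X] [NormedSpace ℂ X] [CompleteSpace X]
    (hX : ¬ FiniteDimensional ℂ X) (T : ℕ → X →L[ℂ] X) (c a : ℕ → ℂ) (hc : ∀ n, c n ≠ 0) :
    ∀ᶠ p in residual (X × (X →L[ℂ] ℂ)), ∃ h : p.2 p.1 ≠ 0, ∀ n,
      (HasInvariantHalfSpace (pert (T n) (c n) p.1 p.2) ∧
        HasInvariantHalfSpace (compr (T n) p.1 p.2 h) ∧
        HasInvariantHalfSpace (extn (T n) p.1 p.2 (a n))) ∧
      (¬ IsAlgebraic ℂ (T n) →
        (HasHyperinvariantHalfSpace (pert (T n) (c n) p.1 p.2) ∧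
          HasHyperinvariantHalfSpace (compr (T n) p.1 p.2 h) ∧
          HasHyperinvariantHalfSpace (extn (T n) p.1 p.2 (a n))) ∧
        (ManyEigenvalues (T n) (pert (T n) (c n) p.1 p.2) ∧
          ManyEigenvalues (T n) (compr (T n) p.1 p.2 h) ∧
          ManyEigenvalues (T n) (extn (T n) p.1 p.2 (a n)))) :=
  Pool.Agent.W768.RK.main X hX T c a hc

end Pool.Agent.Results.MP_f981b0_an.GenericRankOne
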