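import Pool.Agent.W736.TC.Typical
import Pool.Agent.W736.TC.Polish
import Pool.Agent.W736.TC.EllHP

/-!
# MP_f981b0_an: typical contractions of `ℓ_p` have hyperinvariant subspaces

For `1 < p < ∞` the set of the contractions of `ℓ_p`, with the strong* topology, is a Polish space.
The typical element of this space (in the sense of Baire category) has a nontrivial closed
hyperinvariant subspace; in fact the union of its proper closed hyperinvariant subspaces is dense
and its nonzero closed hyperinvariant subspaces have intersection `0`. The same holds for the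
spaces `ℓ_p(E)`, `E` a separable Banach space with separable dual space and with good projections
(for example `E = ℓ_q`, `1 < q < ∞`). For `p = 2` it is a consequence of the theorem of
Brown, Chevreau and Pearcy that the typical contraction has a nontrivial invariant subspace; for
`p ≠ 2` this was asked by Grivaux, Matheron and Menet.
-/

set_option autoImplicit false
open ENNReal Topology

namespace Pool.Agent.Results.MP_f981b0_an.TypicalContraction

open Pool.Agent.W736.TC

/-- The contractions of `X` with the strong* topology form a Polish space, and for a residual set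
of contractions `T` the following holds:
* `T` has a closed hyperinvariant subspace different from `0` and `X`;
* the union of the closed hyperinvariant subspaces of `T` different from `X` is dense in `X`;
* the intersection of the closed hyperinvariant subspaces of `T` different from `0` is `0`. -/
def TypicalHyp (X : Type) [NormedAddCommGroup X] [NormedSpace ℂ X] : Prop :=
  PolishSpace (Contr X) ∧
  {T : Contr X |
    (∃ E : Submodule ℂ X, Hyp T.op E ∧ E ≠ ⊥ ∧ E ≠ ⊤) ∧
    (∀ (x : X) (ε : ℝ), 0 < ε → ∃ E : Submodule ℂ X, Hyp T.op E ∧ E ≠ ⊤ ∧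
      ∃ x' ∈ E, ‖x' - x‖ < ε) ∧
    (∀ v : X, v ≠ 0 → ∃ E : Submodule ℂ X, Hyp T.op E ∧ E ≠ ⊥ ∧ v ∉ E)} ∈ residual (Contr X)

theorem typicalHyp_of_hp {X : Type} [NormedAddCommGroup X] [NormedSpace ℂ X] [CompleteSpace X]
    [Nontrivial X] (h1 : TopologicalSpace.SeparableSpace X)
    (h2 : TopologicalSpace.SeparableSpace (X →L[ℂ] ℂ)) {p q : ℝ} (hpq : p.HolderConjugate q)
    (hX : HP p X) : TypicalHyp X := by
  refine ⟨polish, ?_⟩
  refine Filter.mem_of_superset (main hpq hX) ?_
  rintro T ⟨hT1, hT2⟩
  refine ⟨?_, hT1, hT2⟩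
  obtain ⟨v, hv⟩ := exists_ne (0 : X)
  obtain ⟨E, hE1, hE2, hE3⟩ := hT2 v hv
  exact ⟨E, hE1, hE2, fun h => hE3 (by rw [h]; trivial)⟩

theorem typicalHyp_ell (E : Type) [NormedAddCommGroup E] [NormedSpace ℂ E] [CompleteSpace E]
    [Nontrivial E] (hs1 : TopologicalSpace.SeparableSpace E)
    (hs2 : TopologicalSpace.SeparableSpace (E →L[ℂ] ℂ)) (hE : HasProj E)
    (p : ℝ≥0∞) [Fact (1 ≤ p)] (h1 : 1 < p) (h2 : p < ∞) : TypicalHyp (ell E p) := by
  have hr : 1 < p.toReal := by
    rw [← ENNReal.toReal_one]
    exact (ENNReal.toReal_lt_toReal ENNReal.one_ne_top h2.ne).2 h1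
  have : Nontrivial (ell E p) := by
    obtain ⟨e, he⟩ := exists_ne (0 : E)
    refine ⟨⟨lp.single p 0 e, 0, fun h => he ?_⟩⟩
    have := norm_single' (p := p) 0 e
    rw [h, norm_zero] at this
    exact norm_eq_zero.1 this.symm
  exact typicalHyp_of_hp (sep_ell h2.ne) (sep_dual h1 h2.ne)
    (Real.HolderConjugate.conjExponent hr) (hp_ell hE h1 h2.ne)

/-- **Typical contractions have nontrivial closed hyperinvariant subspaces** (strong* topology) on
`ℓ_p`, `1 < p < ∞`; more generally on `ℓ_p(E)`, `1 < p < ∞`, for every separable Banach space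
`E ≠ 0` with separable dual space and with the property `HasProj` (finite-dimensional spaces have
it, `hasProj_fd`, and `ℓ_q`, `1 < q < ∞`, has it, `hasProj_ell`). -/
theorem result :
    (∀ (p : ℝ≥0∞) [Fact (1 ≤ p)], 1 < p → p < ∞ → TypicalHyp (ell ℂ p)) ∧
    (∀ (E : Type) [NormedAddCommGroup E] [NormedSpace ℂ E] [CompleteSpace E] [Nontrivial E],
      TopologicalSpace.SeparableSpace E → TopologicalSpace.SeparableSpace (E →L[ℂ] ℂ) →
      HasProj E → ∀ (p : ℝ≥0∞) [Fact (1 ≤ p)], 1 < p → p < ∞ → TypicalHyp (ell E p)) := by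
  have hC : TopologicalSpace.SeparableSpace (ℂ →L[ℂ] ℂ) :=
    sep_of (ι := Unit) (fun _ => ContinuousLinearMap.id ℂ ℂ) fun x ε hε =>
      ⟨x, by
        have : x = (x 1) • ContinuousLinearMap.id ℂ ℂ := by
          ext
          simp
        rw [this]
        exact Submodule.smul_mem _ _ (Submodule.subset_span ⟨(), rfl⟩), by simpa using hε⟩
  refine ⟨?_, ?_⟩
  · intro p _ h1 h2
    exact typicalHyp_ell ℂ inferInstance hC hasProj_fd p h1 h2
  · intro E _ _ _ _ hs1 hs2 hE p _ h1 h2
    exact typicalHyp_ell E hs1 hs2 hE p h1 h2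

end Pool.Agent.Results.MP_f981b0_an.TypicalContraction
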