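import Pool.Agent.W660.TP.WotH

/-!
# MP_f981b0_an: typical positive contractions of `ℓ_p` have hyperinvariant subspaces

Let `1 < p < ∞`. The typical (in the sense of Baire category) *positive* contraction of the complex
space `ℓ_p` has a nontrivial closed hyperinvariant subspace; in fact the union of its proper closed
hyperinvariant subspaces is dense. This is proved for every topology on the set of the positive
contractions which lies between the weak operator topology and the strong* operator topology; all
these topologies are Baire topologies. Whether typical positive contractions of `ℓ_p`, `p ≠ 1, 2`,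
have nontrivial invariant subspaces was asked by V. Gillet.
-/

set_option autoImplicit false
open ENNReal Topology

namespace Pool.Agent.Results.MP_f981b0_an.TypicalPositiveContraction

open Pool.Agent.W736.TC Pool.Agent.W660.TP

/-- **Typical positive contractions of `ℓ_p` have nontrivial closed hyperinvariant subspaces**,
`1 < p < ∞`, for all the topologies between the weak operator and the strong* operator topology. -/
theorem result (p : ℝ≥0∞) [Fact (1 ≤ p)] (h1 : 1 < p) (h2 : p < ∞) :
    @PolishSpace (PosContr p) (sots p) ∧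
    ∀ τ : TopologicalSpace (PosContr p), sots p ≤ τ → τ ≤ wot p →
      @BaireSpace (PosContr p) τ ∧
      {T : PosContr p |
        (∃ E : Submodule ℂ (ell ℂ p), Hyp T.op E ∧ E ≠ ⊥ ∧ E ≠ ⊤) ∧
        (∀ (x : ell ℂ p) (ε : ℝ), 0 < ε → ∃ E : Submodule ℂ (ell ℂ p), Hyp T.op E ∧ E ≠ ⊤ ∧
          ∃ x' ∈ E, ‖x' - x‖ < ε)} ∈ @residual (PosContr p) τ := by
  refine ⟨polish_sots h1 h2.ne, fun τ hτ1 hτ2 => ⟨?_, ?_⟩⟩
  · exact baire_between (sots p) τ (wot p) hτ1 hτ2 (exists_wot h1 h2.ne) (baire_sots h1 h2.ne)
  · refine residual_between (sots p) τ (wot p) hτ2 hτ1 (exists_wot h1 h2.ne) _ ?_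
    refine Filter.mem_of_superset (main_sots h1 h2.ne) ?_
    intro T hT
    refine ⟨?_, hT⟩
    have hx : (lp.single p 0 (1:ℂ) : ell ℂ p) ≠ 0 := by
      intro h
      have h3 := congrArg norm h
      rw [lp.norm_single (pos_iff_ne_zero.2 pos_p), norm_one, norm_zero] at h3
      exact one_ne_zero h3
    obtain ⟨E, hE1, hE2, x', hx', hlt⟩ := hT (lp.single p 0 (1:ℂ)) ‖(lp.single p 0 (1:ℂ) : ell ℂ p)‖
      (norm_pos_iff.2 hx)
    refine ⟨E, hE1, fun h => ?_, hE2⟩
    rw [h, Submodule.mem_bot] at hx'
    rw [hx', zero_sub, norm_neg] at hlt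
    exact lt_irrefl _ hlt

end Pool.Agent.Results.MP_f981b0_an.TypicalPositiveContraction
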